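import Mathlib
import Pool.Agent.H286.MR.VH
import Pool.Agent.H286.MR.ClassA

/-!
Negative answer to the measure rigidity question for higher rank class-`𝒜` actions, for a real group
and a connected acting group.

Let `A` be the group of the matrices `diag(e^u, e^(-u), e^v, e^(-v))` in `SL(4, ℝ)`. It is closed and
connected, isomorphic to `ℝ²`, of higher rank, and consists of class-`𝒜` elements. With
`P = [[1, √2], [1, -√2]] ⊕ [[1, √2], [1, -√2]]`, the orbit of the point `x₀ = P SL(4, ℤ)` (`P` being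
normalized to determinant one) under `A` is a compact torus `A/Λ`, `Λ ≅ ℤ²` being given by the units
`ε^m`, `ε = 3 + 2√2`. We construct a `Λ`-invariant ergodic probability measure `μ₀` as the image of the
Haar measure of an odometer `Ω = ∏ ℤ/M_j` under `ω ↦ lim u_k(ω) ⋯ u_0(ω) x₀`, where the factors are
`u_j(ω) = 1 + a_j(ω) E + b_j(ω) E'` for pairs `(E, E')` of conjugate matrix units,
`a_j(ω) = D_j² ε^(ω_j) / (ε^(M_j) - 1)` and `b_j(ω)` is its conjugate in `ℚ(√2)`, and
`μ = ∫_{A/Λ} a μ₀ da`. The measure `μ` is `A`-invariant and ergodic, gives mass zero to the translates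
`g[𝕃]_Γ` of all `ℚ`-subgroups `𝕃` of `SL₄` with `𝕃(ℂ) ≠ SL(4, ℂ)`, and is not virtually homogeneous.
-/

set_option autoImplicit false

namespace Pool.Agent.Results.MP_67388f_an.ConnectedActingGroup

open MeasureTheory Filter
open Pool.Agent.TH225.OC (G GC Gam X QSubgroup IsClassA coset)
open Pool.Agent.Y319.MR (IsHigherRank IsErgodicProb IsVirtuallyHomogeneous conjBy)
open Pool.Agent.H286.MR (IsNormalIn HigherRankImage)

lemma exists_beta : ∃ β : ℕ → Fin 4, ∀ r : Fin 4, ∃ᶠ j in atTop, β j = r := by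
  refine ⟨fun j => ⟨j % 4, Nat.mod_lt _ (by norm_num)⟩, fun r => ?_⟩
  rw [frequently_atTop]
  intro N
  refine ⟨(r : ℕ) + 4 * N, by omega, ?_⟩
  apply Fin.ext
  show ((r : ℕ) + 4 * N) % 4 = r
  have := r.2
  omega

/-- There are a closed connected subgroup `A` of `G = SL(4, ℝ)`, of higher rank, whose nontrivial
elements are of class-`𝒜`, and an `A`-invariant ergodic probability measure `μ` on
`G/Γ = SL(4, ℝ)/SL(4, ℤ)`, such that `μ` is not virtually homogeneous, `μ` gives mass zero to all sets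
`g[𝕃]_Γ` for the `ℚ`-subgroups `𝕃` of `SL₄` with `𝕃(ℂ) ≠ SL(4, ℂ)`, and, for all `ℚ`-subgroups
`ℍ ◁ 𝕃` of `SL₄` with `ℍ(ℂ) ≠ 𝕃(ℂ)` for which some `g[𝕃]_Γ` has positive measure, the image of `A ∩ L`
in `L/H` is of higher rank, even if `A` is replaced by any conjugate `g A g⁻¹`. -/
theorem result :
    ∃ A : Subgroup G, IsClosed (A : Set G) ∧ IsConnected (A : Set G) ∧ IsHigherRank A ∧
      (∀ a ∈ A, a ≠ 1 → IsClassA a) ∧
      ∃ μ : Measure X, IsErgodicProb A μ ∧ ¬ IsVirtuallyHomogeneous G μ ∧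
        (∀ L : QSubgroup, L.Proper → ∀ g : G, μ (coset g L) = 0) ∧
        ∀ (L H : QSubgroup) (hH : IsNormalIn H L), H.grp ≠ L.grp →
          (∃ g : G, 0 < μ (coset g L)) → ∀ g : G, HigherRankImage (conjBy g A) hH := by
  obtain ⟨β, hβ⟩ := exists_beta
  have hnull : ∀ L : QSubgroup, L.Proper → ∀ g : G, Pool.Agent.H286.MR.mu β (coset g L) = 0 :=
    fun L hL g => Pool.Agent.H286.MR.mu_coset β hβ L hL g
  refine ⟨Pool.Agent.H286.MR.A, Pool.Agent.H286.MR.A_closed, Pool.Agent.H286.MR.A_connected,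
    Pool.Agent.H286.MR.A_higherRank, fun a ha ha1 => Pool.Agent.H286.MR.classA ha ha1,
    Pool.Agent.H286.MR.mu β, ⟨inferInstance, Pool.Agent.H286.MR.ergodic_mu β⟩,
    Pool.Agent.H286.MR.not_vh β hβ, hnull, ?_⟩
  rintro L H hH hne ⟨g, hg⟩ g'
  have hL : L.grp = ⊤ := by
    by_contra hcon
    exact hg.ne' (hnull L hcon g)
  exact Pool.Agent.H286.MR.image_higherRank hH hL hne g'

end Pool.Agent.Results.MP_67388f_an.ConnectedActingGroup
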